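import Pool.Agent.CS659.CornD

/-!
# The interface of critical bond percolation (`q = 1`) near the two corners it does not join

The rectangle is `R = [0, m + 1/2] × [0, k + 1/2]` in lattice units, of any aspect ratio. The
interface runs from its lower right to its upper left corner. The probability that it comes within
distance `r` (up to one lattice step) of the lower left corner, and the probability that it comes
within distance `s` of the upper right corner, are of order `(r / min m k) ^ (2/3)` and
`(s / min m k) ^ (2/3)`, and the probability that it does both is comparable to the product: up to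
constants, the visits to the two corners (one by the side of the wired arc, the other one by the
side of the free arc) are independent. The model is defined in `Pool.Agent.H985R2.BTDefs`.
-/

namespace Pool.Agent.Results.MP_216314_pr.CornerVisits

open H985BT

/-- The interface comes near the lower left corner `(0, 0)` of the rectangle: it passes at a dual
vertex `(a, b)` (the point `(a + 1/2, b + 1/2)`) with `a ≤ r` and `b ≤ r`. -/
def NearLowerLeft (m k r : ℕ) (ω : Finset H974.Edg) : Prop :=
  ∃ p ∈ Interface m k ω, p.2.1 ≤ (r : ℤ) ∧ p.2.2 ≤ (r : ℤ)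

/-- The interface comes near the upper right corner `(m + 1/2, k + 1/2)` of the rectangle: it
passes at a vertex `(x, y)` with `m - s ≤ x` and `k - s ≤ y`. -/
def NearUpperRight (m k s : ℕ) (ω : Finset H974.Edg) : Prop :=
  ∃ p ∈ Interface m k ω, (m : ℤ) - s ≤ p.1.1 ∧ (k : ℤ) - s ≤ p.1.2

/-- The predicted order of the probability of a visit. -/
noncomputable def order (m k r : ℕ) : ℝ := ((r : ℝ) / (min m k : ℕ)) ^ (2 / 3 : ℝ)

/-- **Visits of the interface near the two other corners.** -/
theorem result : ∃ c C : ℝ, 0 < c ∧ 0 < C ∧ ∀ m k r s : ℕ, 1 ≤ r → r ≤ min m k → 1 ≤ s →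
    s ≤ min m k →
    (c * order m k r ≤ rcP 1 m k (NearLowerLeft m k r) ∧
      rcP 1 m k (NearLowerLeft m k r) ≤ C * order m k r) ∧
    (c * order m k s ≤ rcP 1 m k (NearUpperRight m k s) ∧
      rcP 1 m k (NearUpperRight m k s) ≤ C * order m k s) ∧
    (c * (order m k r * order m k s) ≤
        rcP 1 m k (fun ω => NearLowerLeft m k r ω ∧ NearUpperRight m k s ω) ∧
      rcP 1 m k (fun ω => NearLowerLeft m k r ω ∧ NearUpperRight m k s ω) ≤
        C * (order m k r * order m k s)) := by
  obtain ⟨c1, C1, hc1, hC1, h1⟩ := CS659.Corn.rc_NC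
  obtain ⟨c2, C2, hc2, hC2, h2⟩ := CS659.Corn.joint
  refine ⟨min c1 c2, max C1 C2, lt_min hc1 hc2, lt_max_of_lt_left hC1, ?_⟩
  intro m k r s hr hrn hs hsn
  have r1 := hrn.trans (min_le_left m k)
  have r2 := hrn.trans (min_le_right m k)
  have s1 := hsn.trans (min_le_left m k)
  have s2 := hsn.trans (min_le_right m k)
  have or0 : 0 ≤ order m k r := by unfold order; positivity
  have os0 : 0 ≤ order m k s := by unfold order; positivity
  have a1 := h1 m k r hr r1 r2
  have a2 := h1 m k s hs s1 s2
  have a3 := h2 m k s r hs hr s1 s2 r1 r2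
  have e1 : rcP 1 m k (NearLowerLeft m k r) = rcP 1 m k (CS659.Corn.NC m k r) :=
    CS659.Corn.rc_NL m k r
  have e2 : rcP 1 m k (fun ω => NearLowerLeft m k r ω ∧ NearUpperRight m k s ω) =
      H974.Pr Pool.Agent.H160R2.CV.P (bulk m k)
        (fun ω => CS659.Corn.NC m k s ω ∧ CS659.Corn.NL m k r ω) := by
    rw [rcP_one]
    exact H974.Pr_congr (fun F _ => and_comm)
  have hmul : ∀ {x : ℝ}, 0 ≤ x → min c1 c2 * x ≤ c1 * x := fun hx =>
    mul_le_mul_of_nonneg_right (min_le_left _ _) hx
  have hmul2 : ∀ {x : ℝ}, 0 ≤ x → min c1 c2 * x ≤ c2 * x := fun hx =>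
    mul_le_mul_of_nonneg_right (min_le_right _ _) hx
  have hmul3 : ∀ {x : ℝ}, 0 ≤ x → C1 * x ≤ max C1 C2 * x := fun hx =>
    mul_le_mul_of_nonneg_right (le_max_left _ _) hx
  have hmul4 : ∀ {x : ℝ}, 0 ≤ x → C2 * x ≤ max C1 C2 * x := fun hx =>
    mul_le_mul_of_nonneg_right (le_max_right _ _) hx
  refine ⟨⟨?_, ?_⟩, ⟨?_, ?_⟩, ?_, ?_⟩
  · rw [e1]; exact (hmul or0).trans a1.1
  · rw [e1]; exact a1.2.trans (hmul3 or0)
  · exact (hmul os0).trans a2.1
  · exact a2.2.trans (hmul3 os0)
  · rw [e2]
    refine (hmul2 (mul_nonneg or0 os0)).trans ?_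
    rw [mul_comm (order m k r)]
    exact a3.1
  · rw [e2]
    refine le_trans ?_ (hmul4 (mul_nonneg or0 os0))
    rw [mul_comm (order m k r)]
    exact a3.2

end Pool.Agent.Results.MP_216314_pr.CornerVisits
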