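import Pool.Agent.H940.GP.DiamWin
import Pool.Agent.W424.NC.Win

/-!
Bond percolation (the random-cluster model with `q = 1`) in the rectangle `[0, m] × [0, n]` whose
left and lower sides are wired and whose right and upper sides are free. The interface joins the
lower right corner to the upper left corner and separates the wired cluster from the dual cluster
of the free sides. We prove the exact self-duality of this setting, the tails of the distance
reached by the wired cluster for `p ≤ 1/2`, and, by duality, of the distance reached by the dual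
cluster for `p ≥ 1/2`; and the exact critical window: at parameters `p n` the interface collapses to
the wired sides, or to the free sides, if and only if `(1/2 - p n) n^(3/4)`, or
`(p n - 1/2) n^(3/4)`, tends to infinity.
-/

namespace Pool.Agent.Results.MP_216314_pr.SelfDualWindow

open Finset Filter Topology

/-- Vertices of the square lattice. -/
abbrev Vertex := ℤ × ℤ

/-- Edges of the square lattice: `(x, y, true)` joins `(x, y)` to `(x + 1, y)` and
`(x, y, false)` joins `(x, y)` to `(x, y + 1)`. -/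
abbrev Edge := ℤ × ℤ × Bool

/-- Faces of the square lattice (dual vertices): `(x, y)` is the square
`[x, x + 1] × [y, y + 1]`. -/
abbrev Face := ℤ × ℤ

/-- First end of an edge. -/
def src (e : Edge) : Vertex := (e.1, e.2.1)

/-- Second end of an edge. -/
def tgt (e : Edge) : Vertex := if e.2.2 then (e.1 + 1, e.2.1) else (e.1, e.2.1 + 1)

/-- The face below a horizontal edge or on the left of a vertical edge. -/
def faceA (e : Edge) : Face := if e.2.2 then (e.1, e.2.1 - 1) else (e.1 - 1, e.2.1)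

/-- The face above a horizontal edge or on the right of a vertical edge. -/
def faceB (e : Edge) : Face := (e.1, e.2.1)

/-- The edges of the rectangle `[0, m] × [0, n]` which do not lie on its left or lower side. -/
noncomputable def edges (m n : ℕ) : Finset Edge :=
  (Icc (0:ℤ) m ×ˢ (Icc (0:ℤ) n ×ˢ univ)).filter
    (fun e => if e.2.2 then e.1 < m ∧ 0 < e.2.1 else 0 < e.1 ∧ e.2.1 < n)

open Classical in
/-- The probability of an event: every edge in `edges m n` is open with probability `p`,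
independently, and the event is a property of the set `F` of the open edges. -/
noncomputable def prob (p : ℝ) (m n : ℕ) (A : Finset Edge → Prop) : ℝ :=
  ∑ F ∈ (edges m n).powerset with A F, p ^ F.card * (1 - p) ^ (edges m n \ F).card

/-- The wired cluster: the vertices which are joined by a path of open edges to a vertex of the
left or the lower side of the rectangle. -/
def Wired (m n : ℕ) (F : Finset Edge) (v : Vertex) : Prop :=
  ∃ u : Vertex, ((u.1 = 0 ∧ 0 ≤ u.2 ∧ u.2 ≤ n) ∨ (u.2 = 0 ∧ 0 ≤ u.1 ∧ u.1 ≤ m)) ∧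
    Relation.ReflTransGen
      (fun a b => ∃ e ∈ F, (src e = a ∧ tgt e = b) ∨ (src e = b ∧ tgt e = a)) u v

/-- The dual cluster of the free sides: the faces which are joined, by a path of faces which
crosses closed edges only, to a face beyond the right or the upper side of the rectangle. -/
def Free (m n : ℕ) (F : Finset Edge) (f : Face) : Prop :=
  ∃ g : Face, ((g.1 = m ∧ 0 ≤ g.2 ∧ g.2 ≤ n) ∨ (g.2 = n ∧ 0 ≤ g.1 ∧ g.1 ≤ m)) ∧
    Relation.ReflTransGen
      (fun a b => ∃ e ∈ edges m n, e ∉ F ∧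
        ((faceA e = a ∧ faceB e = b) ∨ (faceA e = b ∧ faceB e = a))) g f

/-- The wired cluster reaches distance `h` from the wired sides. -/
def WiredReaches (m n h : ℕ) (F : Finset Edge) : Prop :=
  ∃ v : Vertex, Wired m n F v ∧ (h:ℤ) ≤ v.1 ∧ (h:ℤ) ≤ v.2

/-- The dual cluster of the free sides reaches distance `h` from the free sides. -/
def FreeReaches (m n h : ℕ) (F : Finset Edge) : Prop :=
  ∃ f : Face, Free m n F f ∧ f.1 ≤ (m:ℤ) - h ∧ f.2 ≤ (n:ℤ) - h

/-! ### Proofs -/

theorem mem_edges_true {m n : ℕ} {x y : ℤ} :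
    ((x, y, true) : Edge) ∈ edges m n ↔ 0 ≤ x ∧ x < m ∧ 1 ≤ y ∧ y ≤ n := by
  unfold edges
  rw [mem_filter, mem_product, mem_product, mem_Icc, mem_Icc]
  simp only [mem_univ, and_true, if_true]
  omega

theorem mem_edges_false {m n : ℕ} {x y : ℤ} :
    ((x, y, false) : Edge) ∈ edges m n ↔ 1 ≤ x ∧ x ≤ m ∧ 0 ≤ y ∧ y < n := by
  unfold edges
  rw [mem_filter, mem_product, mem_product, mem_Icc, mem_Icc]
  simp only [mem_univ, and_true, Bool.false_eq_true, if_false]
  omega

theorem prob_eq (p : ℝ) (m n : ℕ) (A : Finset Edge → Prop) :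
    prob p m n A = H974.Pr (fun _ => p) (edges m n) A := by
  classical
  unfold prob H974.Pr H974.Ex
  rw [sum_filter]
  apply sum_congr
  · congr
  · intro F _
    beta_reduce
    rw [prod_const, prod_const]
    by_cases hA : A F
    · rw [if_pos hA, H974.ind_of hA, mul_one]
    · rw [if_neg hA, H974.ind_not_of hA, mul_zero]

/-- the reflected dual of an edge -/
def sg (m n : ℕ) : Edge ≃ Edge where
  toFun e := ((m:ℤ) - e.1, (n:ℤ) - e.2.1, !e.2.2)
  invFun e := ((m:ℤ) - e.1, (n:ℤ) - e.2.1, !e.2.2)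
  left_inv := by rintro ⟨x, y, _ | _⟩ <;> simp
  right_inv := by rintro ⟨x, y, _ | _⟩ <;> simp

theorem sg_apply (m n : ℕ) (x y : ℤ) (b : Bool) :
    sg m n (x, y, b) = ((m:ℤ) - x, (n:ℤ) - y, !b) := rfl

/-- the reflection of a face -/
def rho (m n : ℕ) (f : Face) : Vertex := ((m:ℤ) - f.1, (n:ℤ) - f.2)

theorem rho_rho (m n : ℕ) (f : Face) : rho m n (rho m n f) = f := by
  unfold rho
  ext <;> simp

theorem sg_mem {m n : ℕ} {e : Edge} : sg m n e ∈ edges m n ↔ e ∈ edges m n := by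
  obtain ⟨x, y, _ | _⟩ := e
  · rw [sg_apply, Bool.not_false, mem_edges_true, mem_edges_false]; omega
  · rw [sg_apply, Bool.not_true, mem_edges_true, mem_edges_false]; omega

theorem map_edges (m n : ℕ) : (edges m n).map (sg m n).toEmbedding = edges m n := by
  ext e
  rw [mem_map_equiv]
  exact sg_mem (m := m) (n := n) (e := e)

theorem src_sg (m n : ℕ) (e : Edge) : src (sg m n e) = rho m n (faceB e) := rfl

theorem tgt_sg (m n : ℕ) (e : Edge) : tgt (sg m n e) = rho m n (faceA e) := by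
  obtain ⟨x, y, _ | _⟩ := e
  · unfold rho faceA tgt
    rw [sg_apply]
    simp only [Bool.not_false, if_true, Bool.false_eq_true, if_false, Prod.mk.injEq, and_true]
    ring
  · unfold rho faceA tgt
    rw [sg_apply]
    simp only [Bool.not_true, if_true, Bool.false_eq_true, if_false, Prod.mk.injEq, true_and]
    ring

/-- the reflected dual configuration -/
noncomputable def dualC (m n : ℕ) (F : Finset Edge) : Finset Edge :=
  (edges m n \ F).map (sg m n).toEmbedding

theorem mem_dualC {m n : ℕ} {F : Finset Edge} {e : Edge} :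
    e ∈ dualC m n F ↔ sg m n e ∈ edges m n ∧ sg m n e ∉ F := by
  unfold dualC
  rw [mem_map_equiv, Finset.mem_sdiff]
  exact Iff.rfl

theorem sg_sg (m n : ℕ) (e : Edge) : sg m n (sg m n e) = e := (sg m n).left_inv e

theorem duality_event {m n h : ℕ} {F : Finset Edge} :
    FreeReaches m n h F ↔ WiredReaches m n h (dualC m n F) := by
  constructor
  · rintro ⟨f, ⟨g, hg, hr⟩, h1, h2⟩
    refine ⟨rho m n f, ⟨rho m n g, ?_, ?_⟩, ?_, ?_⟩
    · unfold rho
      simp only
      omega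
    · refine Relation.ReflTransGen.lift (rho m n) ?_ _ _ hr
      rintro a b ⟨e, he, heF, hc⟩
      refine ⟨sg m n e, ?_, ?_⟩
      · rw [mem_dualC, sg_sg]
        exact ⟨he, heF⟩
      · rw [src_sg, tgt_sg]
        rcases hc with ⟨rfl, rfl⟩ | ⟨rfl, rfl⟩
        · exact Or.inr ⟨rfl, rfl⟩
        · exact Or.inl ⟨rfl, rfl⟩
    · unfold rho
      simp only
      omega
    · unfold rho
      simp only
      omega
  · rintro ⟨v, ⟨u, hu, hr⟩, h1, h2⟩
    refine ⟨rho m n v, ⟨rho m n u, ?_, ?_⟩, ?_, ?_⟩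
    · unfold rho
      simp only
      omega
    · refine Relation.ReflTransGen.lift (rho m n) ?_ _ _ hr
      rintro a b ⟨e, he, hc⟩
      rw [mem_dualC] at he
      refine ⟨sg m n e, he.1, he.2, ?_⟩
      have e1 : faceB (sg m n e) = rho m n (src e) := by
        rw [← rho_rho m n (faceB (sg m n e)), ← src_sg, sg_sg]
      have e2 : faceA (sg m n e) = rho m n (tgt e) := by
        rw [← rho_rho m n (faceA (sg m n e)), ← tgt_sg, sg_sg]
      rw [e1, e2]
      rcases hc with ⟨rfl, rfl⟩ | ⟨rfl, rfl⟩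
      · exact Or.inr ⟨rfl, rfl⟩
      · exact Or.inl ⟨rfl, rfl⟩
    · unfold rho
      simp only
      omega
    · unfold rho
      simp only
      omega

/-- exact self-duality -/
theorem duality (p : ℝ) (m n h : ℕ) :
    prob p m n (FreeReaches m n h) = prob (1 - p) m n (WiredReaches m n h) := by
  rw [prob_eq, prob_eq]
  have h1 : H974.Pr (fun _ => p) (edges m n) (FreeReaches m n h) =
      H974.Pr (fun _ => p) (edges m n)
        (fun F => (fun G : Finset Edge => WiredReaches m n h (G.map (sg m n).toEmbedding))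
          (edges m n \ F)) := by
    apply H974.Pr_congr
    intro F _
    exact duality_event
  rw [h1, ← H974.Pr_compl (fun _ : Edge => p) (edges m n)
    (fun G : Finset Edge => WiredReaches m n h (G.map (sg m n).toEmbedding)),
    ← H974.Pr_map (fun _ : Edge => 1 - p) (sg m n).toEmbedding (edges m n) (WiredReaches m n h),
    map_edges]

theorem winU : H940.GP.WinU := W424.NC.win_upper 3 (by norm_num)

theorem winL : H940.GP.WinL := W424.NC.win_lower 2 (by norm_num)

theorem upper : ∃ c C : ℝ, 0 < c ∧ 0 < C ∧ ∀ p : ℝ, 0 ≤ p → p ≤ 1/2 → ∀ m n h : ℕ, 1 ≤ h →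
    prob p m n (WiredReaches m n h) ≤
      C * (((m:ℝ) + n) / h + 1) * Real.exp (-(c * (h * (1/2 - p)^(4/3 : ℝ)))) := by
  obtain ⟨c, C, hc, hC, hup⟩ := H940.GP.hh_up winU
  refine ⟨c, 2 * C, hc, by positivity, ?_⟩
  intro p hp0 hp1 m n h hh
  have hp : H974.Ok (fun _ : H974.Edg => p) := H974.okq hp0 (by linarith)
  rw [prob_eq]
  obtain ⟨E, hE⟩ : ∃ E : ℝ, E = Real.exp (-(c * (h * (1/2 - p)^(4/3 : ℝ)))) := ⟨_, rfl⟩
  have hE0 : 0 < E := by rw [hE]; exact Real.exp_pos _
  have h1 : H974.Pr (fun _ => p) (edges m n) (WiredReaches m n h) ≤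
      H974.Pr (fun _ => p) (edges m n)
        (fun F => H974.TBc 0 m 0 h F ∨ H974.LRc 0 h 0 n F) := by
    apply H974.Pr_mono hp
    rintro F hF ⟨v, ⟨u, hu, hr⟩, hv1, hv2⟩
    have hr' : H974.Reach (F : Set Edge) u v := hr
    rcases hu with hu | hu
    · right
      obtain ⟨y1, y2, h3, h4, h5, -⟩ := H974.sub_LR (G := (F : Set Edge)) (a := 0) (b := h)
        (c := 0) (d := n) (by omega)
        (by
          intro x y he _ _
          have := hF (Finset.mem_coe.mp he)
          rw [mem_edges_true] at this; omega)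
        (by
          intro x y he _ _
          have := hF (Finset.mem_coe.mp he)
          rw [mem_edges_false] at this; omega) hr' (by omega) hv1
      exact ⟨y1, y2, h3, h4, h5⟩
    · left
      obtain ⟨y1, y2, h3, h4, h5, -⟩ := H974.sub_TB (G := (F : Set Edge)) (a := 0) (b := m)
        (c := 0) (d := h) (by omega)
        (by
          intro x y he _ _
          have := hF (Finset.mem_coe.mp he)
          rw [mem_edges_false] at this; omega)
        (by
          intro x y he _ _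
          have := hF (Finset.mem_coe.mp he)
          rw [mem_edges_true] at this; omega) hr' (by omega) hv2
      exact ⟨y1, y2, h3, h4, h5⟩
  have h2 := H974.Pr_or_le hp (edges m n) (H974.TBc 0 m 0 h) (H974.LRc 0 h 0 n)
  have h3 : H974.Pr (fun _ => p) (edges m n) (H974.TBc 0 m 0 h) ≤ H974.hh p h m := by
    have e1 := H974.Pr_mono_set hp (S := edges m n) (T := edges m n ∪ H974.TBE 0 m 0 h)
      Finset.subset_union_left (H974.TBc_incr _ 0 m 0 h)
    rw [H974.pr_TBc p Finset.subset_union_right, sub_zero, sub_zero] at e1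
    exact e1
  have h4 : H974.Pr (fun _ => p) (edges m n) (H974.LRc 0 h 0 n) ≤ H974.hh p h n := by
    have e1 := H974.Pr_mono_set hp (S := edges m n) (T := edges m n ∪ H974.LRE 0 h 0 n)
      Finset.subset_union_left (H974.LRc_incr _ 0 h 0 n)
    rw [H974.pr_LRc p Finset.subset_union_right, sub_zero, sub_zero] at e1
    exact e1
  have h5 := hup p hp0 hp1 m h hh
  have h6 := hup p hp0 hp1 n h hh
  rw [← hE] at h5 h6 ⊢
  have hh0 : (1:ℝ) ≤ h := by exact_mod_cast hh
  have e1 : ((m:ℝ) + n) / h = (m:ℝ) / h + n / h := by ring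
  have e2 : 0 ≤ (m:ℝ) / h := by positivity
  have e3 : 0 ≤ (n:ℝ) / h := by positivity
  have e4 : 0 ≤ C * ((m:ℝ) / h) * E := by positivity
  have e5 : 0 ≤ C * ((n:ℝ) / h) * E := by positivity
  rw [e1]
  nlinarith

theorem reaches_of_TB {m n h : ℕ} (hhm : h ≤ m) {F : Finset Edge}
    (hT : H974.TBc h m 0 h F) : WiredReaches m n h F := by
  obtain ⟨x, x', hx, hx', hr⟩ := hT
  have hhm' : (h:ℤ) ≤ m := by exact_mod_cast hhm
  refine ⟨(x', (h:ℤ)), ⟨(x, 0), Or.inr ⟨rfl, by simp only; omega, by simp only; omega⟩, ?_⟩,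
    hx'.1, le_rfl⟩
  exact hr.mono Set.inter_subset_left

theorem TBE_sub {m n h : ℕ} (hh : 1 ≤ h) (hhn : h ≤ n) :
    H974.TBE (h:ℤ) m 0 h ⊆ edges m n := by
  have hhn' : (h:ℤ) ≤ n := by exact_mod_cast hhn
  rintro ⟨x, y, _ | _⟩ h8
  · rw [H974.mem_TBE_false] at h8
    rw [mem_edges_false]; omega
  · rw [H974.mem_TBE_true] at h8
    rw [mem_edges_true]; omega

theorem lower : ∃ c C : ℝ, 0 < c ∧ 0 < C ∧ ∀ p : ℝ, 1/4 ≤ p → p ≤ 1/2 → ∀ m n h : ℕ, 1 ≤ h →
    2 * h ≤ m → h ≤ n → prob p m n (fun F => ¬ WiredReaches m n h F) ≤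
      Real.exp (-(c * ((m:ℝ) / h) * Real.exp (-(C * (h * (1/2 - p)^(4/3 : ℝ)))))) := by
  obtain ⟨c, C, hc, hC, hlow⟩ := H940.GP.hom_low winL
  refine ⟨c / 2, C, by positivity, hC, ?_⟩
  intro p hp0 hp1 m n h hh hhm hhn
  have hp : H974.Ok (fun _ : H974.Edg => p) := H974.okq (by linarith) (by linarith)
  rw [prob_eq]
  obtain ⟨ℓ, hℓ⟩ : ∃ ℓ : ℕ, ℓ = m - h := ⟨_, rfl⟩
  have hℓ1 : (ℓ:ℤ) = (m:ℤ) - h := by omega
  have hℓ2 : (ℓ:ℝ) = (m:ℝ) - h := by
    have : ((ℓ:ℤ):ℝ) = (((m:ℤ) - h : ℤ) : ℝ) := by rw [hℓ1]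
    push_cast at this
    exact this
  have h1 := hlow p hp0 hp1 (H974.TBE 0 ℓ 0 h) ℓ h hh (by omega) (Finset.Subset.refl _)
  rw [H974.Pr_not, H974.pr_TBc p (Finset.Subset.refl _), sub_zero, sub_zero] at h1
  have h2 : H974.Pr (fun _ => p) (edges m n) (fun F => ¬ WiredReaches m n h F) ≤
      H974.Pr (fun _ => p) (edges m n) (fun F => ¬ H974.TBc h m 0 h F) := by
    apply H974.Pr_mono hp
    intro F _ hF hT
    exact hF (reaches_of_TB (by omega) hT)
  rw [H974.Pr_not (A := H974.TBc h m 0 h), H974.pr_TBc p (TBE_sub hh hhn), sub_zero, ← hℓ1] at h2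
  refine h2.trans (h1.trans ?_)
  apply Real.exp_le_exp.mpr
  have hh0 : (1:ℝ) ≤ h := by exact_mod_cast hh
  have hm2 : 2 * (h:ℝ) ≤ m := by exact_mod_cast hhm
  have e1 : (m:ℝ) / h / 2 ≤ (ℓ:ℝ) / h := by
    rw [div_div, div_le_div_iff₀ (by positivity) (by positivity)]
    rw [hℓ2]
    nlinarith
  have e2 : 0 < Real.exp (-(C * (h * (1/2 - p)^(4/3 : ℝ)))) := Real.exp_pos _
  have e3 := mul_le_mul_of_nonneg_left e1 hc.le
  have e4 := mul_le_mul_of_nonneg_right e3 e2.le
  have e5 : c / 2 * ((m:ℝ) / h) = c * ((m:ℝ) / h / 2) := by ring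
  rw [e5]
  linarith

theorem low2 (K : ℝ) : ∃ δ : ℝ, 0 < δ ∧ ∀ p : ℝ, 1/4 ≤ p → p ≤ 1 → ∀ n w h : ℕ,
    1 ≤ w → 1 ≤ h → w ≤ n → w ≤ 2 * h → h ≤ 2 * w → (1/2 - p) * (n:ℝ)^(3/4 : ℝ) < K →
      δ ≤ H974.hh p w h := by
  obtain ⟨c, C, hc, hC, hlow⟩ := winL
  refine ⟨c * Real.exp (-(C * (max K 0)^(4/3 : ℝ))), by positivity, ?_⟩
  intro p hp0 hp1 n w h hw hh hwn hwh hhw hK
  have hq0 : 1/4 ≤ min p (1/2) := le_min hp0 (by norm_num)
  have hq1 : min p (1/2) ≤ 1/2 := min_le_right _ _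
  have h1 := hlow (min p (1/2)) hq0 hq1 w h hw hh hwh hhw
  have h2 := H974.hh_mono_param (p := min p (1/2)) (q := p) (by linarith) (min_le_left _ _) hp1
    (w:ℤ) (h:ℤ)
  refine le_trans ?_ (h1.trans h2)
  apply mul_le_mul_of_nonneg_left _ hc.le
  apply Real.exp_le_exp.mpr
  have h3 : (1/2 - min p (1/2)) * (n:ℝ)^(3/4 : ℝ) ≤ max K 0 := by
    rcases min_cases p (1/2) with ⟨h4, -⟩ | ⟨h4, -⟩
    · rw [h4]; exact hK.le.trans (le_max_left _ _)
    · rw [h4, sub_self, zero_mul]; exact le_max_right _ _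
  have h4 : (w:ℝ) * (1/2 - min p (1/2))^(4/3 : ℝ) ≤ (max K 0)^(4/3 : ℝ) := by
    have e3 : (w:ℝ) ≤ n := by exact_mod_cast hwn
    have e4 : 0 ≤ (1/2 - min p (1/2))^(4/3 : ℝ) := Real.rpow_nonneg (by linarith) _
    refine (mul_le_mul_of_nonneg_right e3 e4).trans ?_
    rw [H940.GP.pow_id (by linarith)]
    exact Real.rpow_le_rpow (mul_nonneg (by linarith) (by positivity)) h3 (by norm_num)
  have := mul_le_mul_of_nonneg_left h4 hC.le
  linarith

theorem window_wired {a b : ℕ} (ha : 1 ≤ a) (hb : 1 ≤ b) (p : ℕ → ℝ)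
    (hp : ∀ n, 0 ≤ p n ∧ p n ≤ 1) :
    (∀ ε : ℝ, 0 < ε → Tendsto (fun n : ℕ =>
      prob (p n) (a * n) (b * n) (WiredReaches (a * n) (b * n) ⌈ε * n⌉₊)) atTop (𝓝 0)) ↔
    Tendsto (fun n : ℕ => (1/2 - p n) * (n:ℝ)^(3/4 : ℝ)) atTop atTop := by
  constructor
  · intro hT
    by_contra hcon
    rw [tendsto_atTop] at hcon
    push Not at hcon
    obtain ⟨K, hK⟩ := hcon
    obtain ⟨δ, hδ, hlow⟩ := low2 K
    have hev1 : ∀ᶠ n : ℕ in atTop, prob (p n) (a * n) (b * n)
        (WiredReaches (a * n) (b * n) ⌈(1/2 : ℝ) * n⌉₊) < δ :=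
      (hT (1/2) (by norm_num)).eventually (gt_mem_nhds hδ)
    obtain ⟨n, hn1, hn2, hn3, hn4⟩ := (hK.and_eventually (hev1.and
      ((H940.GP.near_half (x := fun n => 1/2 - p n) (K := K)).and
        (eventually_ge_atTop 2)))).exists
    have h1 := hn3 hn1
    obtain ⟨h, hh⟩ : ∃ h : ℕ, h = ⌈(1/2 : ℝ) * n⌉₊ := ⟨_, rfl⟩
    rw [← hh] at hn2
    have hn0 : (2:ℝ) ≤ n := by exact_mod_cast hn4
    have f1 : (1/2 : ℝ) * n ≤ h := by rw [hh]; exact Nat.le_ceil _
    have f2 : (h:ℝ) < (1/2 : ℝ) * n + 1 := by rw [hh]; exact Nat.ceil_lt_add_one (by positivity)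
    have f3 : n ≤ 2 * h := by
      have : (n:ℝ) ≤ 2 * h := by linarith
      exact_mod_cast this
    have f4 : 2 * h < n + 2 := by
      have : (2:ℝ) * h < n + 2 := by linarith
      exact_mod_cast this
    have han : n ≤ a * n := Nat.le_mul_of_pos_left n (by omega)
    have hbn : n ≤ b * n := Nat.le_mul_of_pos_left n (by omega)
    obtain ⟨k, hk⟩ : ∃ k : ℕ, k = n - h := ⟨_, rfl⟩
    have h2 := hlow (p n) (by linarith) (hp n).2 n h k (by omega) (by omega) (by omega)
      (by omega) (by omega) hn1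
    have h3 : H974.Pr (fun _ => p n) (edges (a * n) (b * n))
        (H974.TBc h ((a * n : ℕ) : ℤ) 0 h) ≤
        prob (p n) (a * n) (b * n) (WiredReaches (a * n) (b * n) h) := by
      rw [prob_eq]
      apply H974.Pr_mono (H974.okq (hp n).1 (hp n).2)
      intro F _ hF
      exact reaches_of_TB (by omega) hF
    rw [H974.pr_TBc (p n) (TBE_sub (by omega) (by omega)), sub_zero] at h3
    have h4 := H974.hh_mono (q := p n) (hp n).1 (hp n).2 (w := (h:ℤ)) (w' := h) (h := (k:ℤ))
      (h' := ((a * n : ℕ) : ℤ) - h) (by omega) le_rfl (by omega)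
    linarith
  · intro hT ε hε
    obtain ⟨c, C, hc, hC, hup⟩ := upper
    have hlim := H940.GP.exp_tendsto hT (C * (((a:ℝ) + b) / ε + 1)) (c := c * ε) (by positivity)
    refine squeeze_zero' ?_ ?_ hlim
    · filter_upwards with n
      rw [prob_eq]
      exact H974.Pr_nonneg (H974.okq (hp n).1 (hp n).2) _ _
    · have hev2 : ∀ᶠ n : ℕ in atTop, 0 < (1/2 - p n) * (n:ℝ)^(3/4 : ℝ) :=
        hT.eventually_gt_atTop 0
      filter_upwards [hev2, eventually_ge_atTop 1] with n hn2 hn3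
      have hn0 : (1:ℝ) ≤ n := by exact_mod_cast hn3
      have hnp : 0 < (n:ℝ)^(3/4 : ℝ) := by positivity
      have hδ0 : 0 < 1/2 - p n := by
        by_contra hneg
        push Not at hneg
        nlinarith
      have f1 : ε * n ≤ (⌈ε * n⌉₊ : ℝ) := Nat.le_ceil _
      have f2 : 0 < ε * n := by positivity
      have f3 : 1 ≤ ⌈ε * n⌉₊ := Nat.one_le_iff_ne_zero.mpr (Nat.ceil_pos.mpr f2).ne'
      have f4 : (0:ℝ) < (⌈ε * n⌉₊ : ℝ) := by linarith
      refine (hup (p n) (hp n).1 (by linarith) (a * n) (b * n) ⌈ε * n⌉₊ f3).trans ?_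
      have g1 : (((a * n : ℕ) : ℝ) + ((b * n : ℕ) : ℝ)) / (⌈ε * n⌉₊ : ℝ) ≤ ((a:ℝ) + b) / ε := by
        rw [div_le_div_iff₀ f4 hε]
        push_cast
        have e1 : ((a:ℝ) + b) * (ε * n) ≤ ((a:ℝ) + b) * (⌈ε * n⌉₊ : ℝ) :=
          mul_le_mul_of_nonneg_left f1 (by positivity)
        linarith
      apply mul_le_mul (mul_le_mul_of_nonneg_left (by linarith) hC.le) _ (Real.exp_pos _).le
        (by positivity)
      apply Real.exp_le_exp.mpr
      rw [← H940.GP.pow_id hδ0.le]
      have g3 : 0 ≤ (1/2 - p n)^(4/3 : ℝ) := Real.rpow_nonneg hδ0.le _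
      have g4 := mul_le_mul_of_nonneg_right f1 g3
      have g5 := mul_le_mul_of_nonneg_left g4 hc.le
      linarith

theorem window_free {a b : ℕ} (ha : 1 ≤ a) (hb : 1 ≤ b) (p : ℕ → ℝ)
    (hp : ∀ n, 0 ≤ p n ∧ p n ≤ 1) :
    (∀ ε : ℝ, 0 < ε → Tendsto (fun n : ℕ =>
      prob (p n) (a * n) (b * n) (FreeReaches (a * n) (b * n) ⌈ε * n⌉₊)) atTop (𝓝 0)) ↔
    Tendsto (fun n : ℕ => (p n - 1/2) * (n:ℝ)^(3/4 : ℝ)) atTop atTop := by
  have h1 := window_wired ha hb (fun n => 1 - p n)
    (fun n => ⟨by linarith [(hp n).2], by linarith [(hp n).1]⟩)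
  have e1 : (fun n : ℕ => (1/2 - (1 - p n)) * (n:ℝ)^(3/4 : ℝ)) =
      fun n : ℕ => (p n - 1/2) * (n:ℝ)^(3/4 : ℝ) := by
    funext n; ring
  rw [e1] at h1
  rw [← h1]
  simp only [duality]

/-- **Self-duality and the critical window in the rectangle with two wired and two free sides.**
(1) Exact self-duality. (2), (3) For `p ≤ 1/2`: the tails of the distance reached by the wired
cluster, on the scale `(1/2 - p)^(-4/3)`; by (1) the same bounds hold for the dual cluster at the
parameter `1 - p`. (4) In the rectangles `[0, a n] × [0, b n]`, at the parameters `p n`, the wired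
cluster, and with it the interface, stays within distance `o(n)` of the wired sides if and only if
`(1/2 - p n) n^(3/4)` tends to infinity, and the dual cluster, and with it the interface, stays
within distance `o(n)` of the free sides if and only if `(p n - 1/2) n^(3/4)` tends to infinity. -/
theorem result :
    -- (1) exact self-duality
    (∀ (p : ℝ) (m n h : ℕ),
      prob p m n (FreeReaches m n h) = prob (1 - p) m n (WiredReaches m n h)) ∧
    -- (2) upper bound for the tail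
    (∃ c C : ℝ, 0 < c ∧ 0 < C ∧ ∀ p : ℝ, 0 ≤ p → p ≤ 1/2 → ∀ m n h : ℕ, 1 ≤ h →
      prob p m n (WiredReaches m n h) ≤
        C * (((m:ℝ) + n) / h + 1) * Real.exp (-(c * (h * (1/2 - p)^(4/3 : ℝ))))) ∧
    -- (3) lower bound for the tail
    (∃ c C : ℝ, 0 < c ∧ 0 < C ∧ ∀ p : ℝ, 1/4 ≤ p → p ≤ 1/2 → ∀ m n h : ℕ, 1 ≤ h →
      2 * h ≤ m → h ≤ n → prob p m n (fun F => ¬ WiredReaches m n h F) ≤
        Real.exp (-(c * ((m:ℝ) / h) * Real.exp (-(C * (h * (1/2 - p)^(4/3 : ℝ))))))) ∧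
    -- (4) the critical window
    (∀ a b : ℕ, 1 ≤ a → 1 ≤ b → ∀ p : ℕ → ℝ, (∀ n, 0 ≤ p n ∧ p n ≤ 1) →
      ((∀ ε : ℝ, 0 < ε → Tendsto (fun n : ℕ =>
          prob (p n) (a * n) (b * n) (WiredReaches (a * n) (b * n) ⌈ε * n⌉₊)) atTop (𝓝 0)) ↔
        Tendsto (fun n : ℕ => (1/2 - p n) * (n:ℝ)^(3/4 : ℝ)) atTop atTop) ∧
      ((∀ ε : ℝ, 0 < ε → Tendsto (fun n : ℕ =>
          prob (p n) (a * n) (b * n) (FreeReaches (a * n) (b * n) ⌈ε * n⌉₊)) atTop (𝓝 0)) ↔
        Tendsto (fun n : ℕ => (p n - 1/2) * (n:ℝ)^(3/4 : ℝ)) atTop atTop)) :=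
  ⟨duality, upper, lower, fun _ _ ha hb p hp => ⟨window_wired ha hb p hp, window_free ha hb p hp⟩⟩

end Pool.Agent.Results.MP_216314_pr.SelfDualWindow
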